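import Pool.Agent.Helper1.T1.Goals

/-!
PROJECT T1 (MP_d3128a_ag): packet T1-LEVT (the levels)
-/

set_option autoImplicit false

namespace Pool.Agent.Helper44.T1.LEVT

open Pool.Agent.Helper97 Pool.Agent.Helper97.Nag Pool.Agent.Helper1.T1
open Pool.Agent.Helper97.Tate (OO KK SS cf iO evx evK Van Fm)
open MvPolynomial

section

variable {K : Type} [Field K] {g : MvPolynomial (Fin 3) K} {k d : ℕ}

/-- the monomials of the normal forms -/
noncomputable def Mo (K : Type) [Field K] (k d r : ℕ) : MvPolynomial (Fin 3) K :=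
  X 0 ^ (nfi k d r).1 * X 1 ^ (nfi k d r).2 * X 2 ^ (d - (nfi k d r).1 - (nfi k d r).2)

/-- the normal form with the coefficients `v` -/
noncomputable def NFv (k d : ℕ) (v : Fin (nf k d).card → K) : MvPolynomial (Fin 3) K :=
  ∑ r : Fin (nf k d).card, C (v r) * Mo K k d r

theorem NFv_add (v w : Fin (nf k d).card → K) : NFv k d (v + w) = NFv k d v + NFv k d w := by
  unfold NFv
  rw [← Finset.sum_add_distrib]
  refine Finset.sum_congr rfl fun r _ => ?_
  rw [Pi.add_apply, C_add, add_mul]

theorem NFv_smul (c : K) (v : Fin (nf k d).card → K) :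
    NFv k d (c • v) = C c * NFv k d v := by
  unfold NFv
  rw [Finset.mul_sum]
  refine Finset.sum_congr rfl fun r _ => ?_
  rw [Pi.smul_apply, smul_eq_mul, C_mul, mul_assoc]

theorem NFv_zero : NFv k d (0 : Fin (nf k d).card → K) = 0 := by
  unfold NFv
  refine Finset.sum_eq_zero fun r _ => ?_
  rw [Pi.zero_apply, C_0, zero_mul]

/-- the property to be proved -/
def Q (g : MvPolynomial (Fin 3) K) (k d : ℕ) (z : MvPolynomial (Fin 3) K) : Prop :=
  ∃ (y : MvPolynomial (Fin 3) K) (v : Fin (nf k d).card → K), z = g * y + NFv k d v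

theorem Q_zero : Q g k d 0 :=
  ⟨0, 0, by rw [NFv_zero, mul_zero, add_zero]⟩

theorem Q_add {z z' : MvPolynomial (Fin 3) K}
    (h : Q g k d z) (h' : Q g k d z') : Q g k d (z + z') := by
  obtain ⟨y, r, h1⟩ := h
  obtain ⟨y', r', h1'⟩ := h'
  refine ⟨y + y', r + r', ?_⟩
  rw [h1, h1', NFv_add]
  ring

theorem Q_smul (c : K) {z : MvPolynomial (Fin 3) K}
    (h : Q g k d z) : Q g k d (C c * z) := by
  obtain ⟨y, r, h1⟩ := h
  refine ⟨C c * y, c • r, ?_⟩
  rw [h1, NFv_smul]
  ring

theorem Q_G (y : MvPolynomial (Fin 3) K) : Q g k d (g * y) :=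
  ⟨y, 0, by rw [NFv_zero, add_zero]⟩

theorem Q_sum {ι : Type} (s : Finset ι) (f : ι → MvPolynomial (Fin 3) K)
    (h : ∀ i ∈ s, Q g k d (f i)) : Q g k d (∑ i ∈ s, f i) := by
  classical
  induction s using Finset.induction_on with
  | empty =>
    rw [Finset.sum_empty]
    exact Q_zero
  | insert v S hv ih =>
    rw [Finset.sum_insert hv]
    exact Q_add (h v (Finset.mem_insert_self _ _))
      (ih fun i hi => h i (Finset.mem_insert_of_mem hi))

theorem deg3 (v : Fin 3 →₀ ℕ) : v.degree = v 0 + v 1 + v 2 := by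
  rw [Finsupp.degree_eq_sum, Fin.sum_univ_three]

theorem lt_of_ne (v : Fin 3 →₀ ℕ) (hd : v.degree = k) (hv : v ≠ Finsupp.single 0 k) : v 0 < k := by
  rw [deg3] at hd
  by_contra hc
  push Not at hc
  have h1 : v 1 = 0 := by omega
  have h0 : v 0 = k := by omega
  have h2 : v 2 = 0 := by omega
  apply hv
  ext i
  fin_cases i
  · simpa using h0
  · simpa using h1
  · simpa using h2

theorem nfi_of_mem (k d : ℕ) (p : ℕ × ℕ) (hp : p ∈ nf k d) :
    ∃ r : Fin (nf k d).card, nfi k d r = p := by
  refine ⟨(nf k d).equivFin ⟨p, hp⟩, ?_⟩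
  unfold nfi
  rw [dif_pos (Fin.is_lt _)]
  simp

theorem Q_nf (e : Fin 3 →₀ ℕ) (h0 : e 0 < k) (hd : e.degree = d) :
    Q g k d (monomial e (1 : K)) := by
  have hd' := hd
  rw [deg3] at hd'
  have hmem : (e 0, e 1) ∈ nf k d := by
    unfold nf
    rw [Finset.mem_filter, Finset.mem_product, Finset.mem_range, Finset.mem_range]
    refine ⟨⟨h0, ?_⟩, ?_⟩
    · show e 1 < d + 1
      omega
    · show e 0 + e 1 ≤ d
      omega
  obtain ⟨r, hr⟩ := nfi_of_mem k d _ hmem
  refine ⟨0, Pi.single r 1, ?_⟩
  rw [mul_zero, zero_add]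
  unfold NFv
  rw [Finset.sum_eq_single r]
  · rw [Pi.single_eq_same, C_1, one_mul]
    unfold Mo
    rw [hr]
    have h2 : d - e 0 - e 1 = e 2 := by omega
    show monomial e (1 : K) = X 0 ^ (e 0) * X 1 ^ (e 1) * X 2 ^ (d - e 0 - e 1)
    rw [h2, X_pow_eq_monomial, X_pow_eq_monomial, X_pow_eq_monomial, monomial_mul, monomial_mul,
      one_mul, one_mul]
    have he : e = Finsupp.single 0 (e 0) + Finsupp.single 1 (e 1) + Finsupp.single 2 (e 2) := by
      refine Finsupp.ext fun i => ?_
      fin_cases i <;> simp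
    exact congrArg (fun v => monomial v (1 : K)) he
  · intro s _ hs
    rw [Pi.single_eq_of_ne hs, C_0, zero_mul]
  · intro h
    exact absurd (Finset.mem_univ _) h

theorem Q_mon (hG : g.IsHomogeneous k) (hu : coeff (Finsupp.single 0 k) g = 1) (b : ℕ) :
    ∀ e : Fin 3 →₀ ℕ, e 0 = b → e.degree = d → Q g k d (monomial e (1 : K)) := by
  classical
  induction b using Nat.strong_induction_on with
  | _ b ih =>
    intro e he hd
    by_cases hb : b < k
    · exact Q_nf e (by omega) hd
    · obtain ⟨e', he'⟩ : ∃ e' : Fin 3 →₀ ℕ, e = Finsupp.single 0 k + e' := by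
        have hle : Finsupp.single 0 k ≤ e := by
          rw [Finsupp.single_le_iff]
          omega
        exact ⟨e - Finsupp.single 0 k, (add_tsub_cancel_of_le hle).symm⟩
      have hb' : e' 0 + k = b := by
        rw [← he, he']
        simp [add_comm]
      have hd' : k + e'.degree = d := by
        rw [← hd, he', map_add, Finsupp.degree_single]
      have hmem : Finsupp.single 0 k ∈ g.support := by
        rw [mem_support_iff, hu]
        exact one_ne_zero
      have hG2 : g = monomial (Finsupp.single 0 k) 1 +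
          ∑ v ∈ g.support.erase (Finsupp.single 0 k), monomial v (coeff v g) := by
        conv_lhs => rw [g.as_sum]
        rw [← Finset.add_sum_erase _ _ hmem, hu]
      have hrest : Q g k d ((∑ v ∈ g.support.erase (Finsupp.single 0 k),
          monomial v (coeff v g)) * monomial e' 1) := by
        rw [Finset.sum_mul]
        refine Q_sum _ _ ?_
        intro v hv
        rw [Finset.mem_erase] at hv
        have hvd : v.degree = k := by
          rw [Finsupp.degree_eq_weight_one]
          exact hG (mem_support_iff.mp hv.2)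
        have hv1 : v 0 < k := lt_of_ne v hvd hv.1
        have h1 : monomial v (coeff v g) * monomial e' (1 : K) =
            C (coeff v g) * monomial (v + e') (1 : K) := by
          rw [monomial_mul, C_mul_monomial]
        rw [h1]
        apply Q_smul
        refine ih (v 0 + e' 0) (by omega) _ ?_ ?_
        · rw [Finsupp.add_apply]
        · rw [map_add, hvd, hd']
      have key : monomial e (1 : K) = g * monomial e' (1 : K) + C (-1 : K) *
          ((∑ v ∈ g.support.erase (Finsupp.single 0 k),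
          monomial v (coeff v g)) * monomial e' 1) := by
        conv_rhs =>
          congr
          · rw [hG2]
        rw [he', add_mul, monomial_mul, mul_one, C_neg, C_1]
        ring
      rw [key]
      exact Q_add (Q_G _) (Q_smul _ hrest)

theorem Q_all (hG : g.IsHomogeneous k) (hu : coeff (Finsupp.single 0 k) g = 1)
    (z : MvPolynomial (Fin 3) K) (hz : z.IsHomogeneous d) : Q g k d z := by
  rw [z.as_sum]
  refine Q_sum _ _ ?_
  intro v hv
  have h1 : monomial v (coeff v z) = C (coeff v z) * monomial v (1 : K) := by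
    rw [C_mul_monomial, mul_one]
  rw [h1]
  apply Q_smul
  refine Q_mon hG hu _ v rfl ?_
  rw [Finsupp.degree_eq_weight_one]
  exact hz (mem_support_iff.mp hv)

/-- the pairs of a form and of the coefficients of its normal form -/
def Pa (W : Submodule K (MvPolynomial (Fin 3) K)) (g : MvPolynomial (Fin 3) K) (k d : ℕ) :
    Submodule K (W × (Fin (nf k d).card → K)) where
  carrier := {zv | g ∣ (zv.1 : MvPolynomial (Fin 3) K) - NFv k d zv.2}
  add_mem' := by
    intro a b ha hb
    have h := dvd_add ha hb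
    have h2 : ((a + b).1 : MvPolynomial (Fin 3) K) - NFv k d (a + b).2 =
        ((a.1 : MvPolynomial (Fin 3) K) - NFv k d a.2) +
          ((b.1 : MvPolynomial (Fin 3) K) - NFv k d b.2) := by
      rw [Prod.fst_add, Prod.snd_add, NFv_add, Submodule.coe_add]
      ring
    show g ∣ _
    rw [h2]
    exact h
  zero_mem' := by
    show g ∣ ((0 : W × (Fin (nf k d).card → K)).1 : MvPolynomial (Fin 3) K) -
      NFv k d (0 : W × (Fin (nf k d).card → K)).2
    rw [Prod.fst_zero, Prod.snd_zero, NFv_zero, Submodule.coe_zero, sub_zero]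
    exact dvd_zero _
  smul_mem' := by
    intro c a ha
    have h : g ∣ C c * ((a.1 : MvPolynomial (Fin 3) K) - NFv k d a.2) :=
      Dvd.dvd.mul_left ha _
    have h2 : ((c • a).1 : MvPolynomial (Fin 3) K) - NFv k d (c • a).2 =
        C c * ((a.1 : MvPolynomial (Fin 3) K) - NFv k d a.2) := by
      rw [Prod.smul_fst, Prod.smul_snd, NFv_smul, Submodule.coe_smul, smul_eq_C_mul]
      ring
    show g ∣ _
    rw [h2]
    exact h

theorem exists_lin (W : Submodule K (MvPolynomial (Fin 3) K))
    (hW : ∀ z : W, Q g k d (z : MvPolynomial (Fin 3) K)) :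
    ∃ a : W →ₗ[K] (Fin (nf k d).card → K),
      ∀ z : W, g ∣ (z : MvPolynomial (Fin 3) K) - NFv k d (a z) := by
  let π : Pa W g k d →ₗ[K] W := (LinearMap.fst K W (Fin (nf k d).card → K)).comp (Pa W g k d).subtype
  have hπ : LinearMap.range π = ⊤ := by
    rw [LinearMap.range_eq_top]
    intro z
    obtain ⟨y, v, hv⟩ := hW z
    refine ⟨⟨(z, v), ?_⟩, rfl⟩
    show g ∣ (z : MvPolynomial (Fin 3) K) - NFv k d v
    rw [hv, add_sub_cancel_right]
    exact dvd_mul_right _ _
  obtain ⟨s, hs⟩ := LinearMap.exists_rightInverse_of_surjective π hπ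
  refine ⟨(LinearMap.snd K W (Fin (nf k d).card → K)).comp ((Pa W g k d).subtype.comp s), ?_⟩
  intro z
  have h1 : π (s z) = z := by
    have := LinearMap.congr_fun hs z
    simpa using this
  have h2 : ((s z : W × (Fin (nf k d).card → K))).1 = z := h1
  have h3 : g ∣ (((s z : W × (Fin (nf k d).card → K))).1 : MvPolynomial (Fin 3) K) -
      NFv k d ((s z : W × (Fin (nf k d).card → K))).2 := (s z).2
  rw [h2] at h3
  exact h3

theorem aeval_NFv (h : Fin 3 → PowerSeries K) (h2 : h 2 = 1) (v : Fin (nf k d).card → K) :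
    MvPolynomial.aeval h (NFv k d v) =
      ∑ r : Fin (nf k d).card, PowerSeries.C (v r) *
        (h 0 ^ (nfi k d r).1 * h 1 ^ (nfi k d r).2) := by
  unfold NFv Mo
  rw [map_sum]
  refine Finset.sum_congr rfl fun r _ => ?_
  rw [map_mul, map_mul, map_mul, map_pow, map_pow, map_pow, aeval_X, aeval_X, aeval_X, h2, one_pow,
    mul_one, aeval_C]
  rfl

end

/-- **LEVT** -/
theorem t : S_LEVT := by
  intro K _ k d b g h hk hG hu hgh h2 j hj
  have hdj : (0 : ℤ) ≤ (d : ℤ) - k * j := by
    have : ((k * j : ℕ) : ℤ) ≤ (d : ℤ) := by exact_mod_cast hj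
    push_cast at this
    omega
  have hnat : ((d : ℤ) - k * j).toNat = d - k * j := by
    have : ((d : ℤ) - k * j) = ((d - k * j : ℕ) : ℤ) := by
      rw [Nat.cast_sub hj]
      push_cast
      ring
    rw [this, Int.toNat_natCast]
  have hW : ∀ z : WKV (fun i : Fin 0 => (i.elim0 : Fin 3 → K)) (fun i => i.elim0) d k j,
      Q g k (d - k * j) (z : MvPolynomial (Fin 3) K) := by
    intro z
    have hz1 : (z : MvPolynomial (Fin 3) K) ∈ Fm K ((d : ℤ) - k * j) := z.2.1
    generalize (z : MvPolynomial (Fin 3) K) = w at hz1 ⊢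
    unfold Fm at hz1
    rw [if_pos hdj, hnat, mem_homogeneousSubmodule] at hz1
    exact Q_all hG hu _ hz1
  obtain ⟨a, ha⟩ := exists_lin _ hW
  refine ⟨a, ?_, ?_⟩
  · intro z hz
    have h3 := ha z
    rw [hz, NFv_zero, sub_zero] at h3
    exact h3
  · intro z i
    obtain ⟨y, hy⟩ := ha z
    have h3 : (z : MvPolynomial (Fin 3) K) = g * y + NFv k (d - k * j) (a z) := by
      rw [← hy]
      ring
    rw [one_pow, one_mul, one_mul, h3, map_add, map_mul, hgh i, zero_mul, zero_add,
      aeval_NFv _ (h2 i)]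

end Pool.Agent.Helper44.T1.LEVT
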